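import Pool.Agent.H.MP_c85d9c_lc.Defs

namespace Pool.Agent.H.MP_c85d9c_lc

open Finset

theorem Win.done {E} (U W : Finset ℕ) (h : ∃ e ∈ E, ∀ v ∈ e, v ∈ W) : Win E U W := by
  induction U using Finset.strongInduction generalizing W with
  | H U ih =>
    by_cases c : U.card ≤ 1
    · exact .stop c h
    obtain ⟨p, a, q, b, d⟩ := one_lt_card.1 (not_le.1 c)
    have : U \ {p, q} ⊂ U := sdiff_ssubset (by simp [insert_subset_iff, a, b]) (by simp)
    obtain ⟨e, f, g⟩ := h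
    exact .step p q a b d (ih _ this _ ⟨e, f, fun v h => by simp [g v h]⟩) (ih _ this _ ⟨e, f, fun v h => by simp [g v h]⟩)

/-- Client takes `p`, Waiter gets `q` -/
structure Mv (ν : ℕ → ℚ) (p q : ℕ) (μ : ℕ → ℚ) : Prop where
  ne : p ≠ q
  a : ν p = 1 / 2
  b : ν q = 1 / 2
  c : μ p = 0
  d : μ q = 1
  e : ∀ v, v ≠ p → v ≠ q → μ v = ν v

theorem Mv.nn {ν p q μ} (h : Mv ν p q μ) (k : ∀ v, 0 ≤ ν v) (v) : 0 ≤ μ v := by
  by_cases a : v = p
  · simp [a, h.c]
  by_cases b : v = q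
  · simp [b, h.d]
  exact h.e v a b ▸ k v

structure Good (S : Set ℕ) (F : (ℕ → ℚ) → ℚ) : Prop where
  mono : ∀ μ ν : ℕ → ℚ, (∀ v, 0 ≤ μ v) → (∀ v, 0 ≤ ν v) → (∀ v ∈ S, μ v ≤ ν v) → 0 ≤ F μ ∧ F μ ≤ F ν
  mid : ∀ ν p q μ μ', (∀ v, 0 ≤ ν v) → Mv ν p q μ → Mv ν q p μ' → F μ + F μ' ≤ 2 * F ν

variable {S T : Set ℕ} {F G : (ℕ → ℚ) → ℚ}

theorem Good.const (c : ℚ) (h : 0 ≤ c) : Good S fun _ => c := ⟨by simp [h], fun _ _ _ _ _ _ _ _ => by linarith⟩

theorem Good.sub (h : Good S F) (k : S ⊆ T) : Good T F := ⟨fun μ ν a b c => h.1 μ ν a b fun v e => c v (k e), h.2⟩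

theorem Good.add (h : Good S F) (k : Good S G) : Good S fun ν => F ν + G ν :=
  ⟨fun μ ν a b c => by have := h.1 μ ν a b c; have := k.1 μ ν a b c; constructor <;> linarith,
    fun ν p q μ μ' a b c => by have := h.2 ν p q μ μ' a b c; have := k.2 ν p q μ μ' a b c; linarith⟩

theorem Good.mul (h : Good S F) {v} (k : v ∉ S) (l : v ∈ T) (m : S ⊆ T) : Good T fun ν => ν v * F ν := by
  refine ⟨fun μ ν a b c => ?_, fun ν p q μ μ' a b c => ?_⟩
  · have := h.1 μ ν a b fun v e => c v (m e)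
    exact ⟨mul_nonneg (a v) this.1, mul_le_mul (c v l) this.2 this.1 (b v)⟩
  have s : ∀ {q μ}, Mv ν q v μ → F μ ≤ F ν := fun {q μ} c => (h.1 μ ν (c.nn a) a fun w e => by
    by_cases i : w = q
    · simp [i, c.c, a]
    · exact (c.e w i fun j => k (j ▸ e)).le).2
  by_cases i : v = p
  · subst i; have := s c; rw [b.c, c.d, b.a]; linarith
  by_cases j : v = q
  · subst j; have := s b; rw [b.d, c.c, b.b]; linarith
  rw [b.e v i j, c.e v j i]
  have := mul_le_mul_of_nonneg_left (h.2 ν p q μ μ' a b c) (a v)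
  linarith

theorem Good.var {v} (l : v ∈ T) : Good T fun ν => ν v := by
  simpa using (Good.const (S := ∅) 1 one_pos.le).mul (v := v) (by simp) l (by simp)

def nu (U W : Finset ℕ) (v : ℕ) : ℚ := if v ∈ W then 1 else if v ∈ U then 1 / 2 else 0

theorem nu_nn (U W v) : 0 ≤ nu U W v := by unfold nu; split_ifs <;> norm_num

theorem nu_mv {U W : Finset ℕ} {p q} (h : Disjoint U W) (a : p ∈ U) (b : q ∈ U) (c : p ≠ q) :
    Mv (nu U W) p q (nu (U \ {p, q}) (insert q W)) ∧ Mv (nu U W) q p (nu (U \ {p, q}) (insert p W)) ∧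
      Disjoint (U \ {p, q}) (insert q W) ∧ Disjoint (U \ {p, q}) (insert p W) := by
  have d := disjoint_left.1 h a
  have e := disjoint_left.1 h b
  have := h.mono_left (sdiff_subset (t := {p, q}))
  refine ⟨⟨c, ?_, ?_, ?_, ?_, ?_⟩, ⟨c.symm, ?_, ?_, ?_, ?_, ?_⟩, ?_, ?_⟩ <;> simp +contextual [nu, c.symm, *]

def Lose (E : List (List ℕ)) (μ : ℕ → ℚ) : Prop :=
  ∃ S F, Good S F ∧ (∀ ν : ℕ → ℚ, (∀ v, 0 ≤ ν v) → (∃ e ∈ E, ∀ v ∈ e, ν v = 1) → 1 ≤ F ν) ∧ F μ < 1

theorem Win.not_lose {E U W} (h : Win E U W) (d : Disjoint U W) : ¬ Lose E (nu U W) := by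
  rintro ⟨S, F, a, b, c⟩
  induction h with
  | stop _ h => exact c.not_ge (b _ (nu_nn _ _) (h.imp fun e => .imp_right fun h v k => if_pos (h v k)))
  | step p q e f g _ _ i j =>
    obtain ⟨k, l, m, n⟩ := nu_mv d e f g
    have := a.2 _ _ _ _ _ (nu_nn _ _) k l
    exact i n (by linarith [not_lt.1 (j m)])

theorem Win.not_inv {E U W} {I : (ℕ → ℚ) → Prop} (h1 : ∀ ν, I ν → ¬ ∃ e ∈ E, ∀ v ∈ e, ν v = 1)
    (h2 : ∀ ν p q μ μ', I ν → Mv ν p q μ → Mv ν q p μ' → (I μ ∨ Lose E μ) ∨ I μ' ∨ Lose E μ')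
    (h : Win E U W) (d : Disjoint U W) : ¬ I (nu U W) := by
  induction h with
  | stop _ h => exact fun c => h1 _ c (h.imp fun e => .imp_right fun h v k => if_pos (h v k))
  | step p q e f g a b i j =>
    obtain ⟨k, l, m, n⟩ := nu_mv d e f g
    exact fun c => (h2 _ _ _ _ _ c k l).elim (·.elim (j m) (b.not_lose m)) (·.elim (i n) (a.not_lose n))

def V (a b : ℕ → ℚ) : ℕ → ℕ → ℚ
  | 0, _ => 1
  | r + 1, k => a k + b k * V a b r (k + 1)

theorem Good.chain {S : ℕ → Set ℕ} {A B : ℕ → (ℕ → ℚ) → ℚ} (hA : ∀ k, Good (S k) (A k))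
    (hB : ∀ k F, Good (S (k + 1)) F → Good (S k) fun ν => B k ν * F ν) (r k) :
    Good (S k) fun ν => V (A · ν) (B · ν) r k := by
  induction r generalizing k with
  | zero => exact .const 1 one_pos.le
  | succ r ih => exact (hA k).add (hB k _ (ih _))

variable {a b : ℕ → ℚ}

theorem V_one {r k} (h : ∀ i, k ≤ i → i < k + r → a i + b i = 1) : V a b r k = 1 := by
  induction r generalizing k with
  | zero => rfl
  | succ r ih => rw [V, ih fun i _ _ => h i (by omega) (by omega), mul_one, h k le_rfl (by omega)]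

theorem V_lt {r k j} (h0 : k ≤ j) (h1 : j < k + r) (h : ∀ i, k ≤ i → i < j → a i + b i = 1 ∧ 0 < b i)
    (h2 : a j + b j * V a b (k + r - (j + 1)) (j + 1) < 1) : V a b r k < 1 := by
  induction r generalizing k with
  | zero => omega
  | succ r ih =>
    rcases h0.eq_or_lt with rfl | l
    · rwa [show k + (r + 1) - (k + 1) = r by omega] at h2
    · have := ih l (by omega) (fun i _ => h i (by omega)) (by rwa [show k + 1 + r = k + (r + 1) by omega])
      have := h k le_rfl l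
      rw [V]; nlinarith

theorem V_nn (h : ∀ i, 0 ≤ a i ∧ 0 ≤ b i) (r k) : 0 ≤ V a b r k := by
  induction r generalizing k with
  | zero => exact one_pos.le
  | succ r ih => exact add_nonneg (h k).1 (mul_nonneg (h k).2 (ih _))

theorem V_two {r k j} (h0 : ∀ i, 0 ≤ a i ∧ 0 ≤ b i) (h : ∀ i, k ≤ i → i < k + r → i ≠ j → a i + b i = 1)
    (h1 : k ≤ j → j < k + r → a j + b j < 2) : V a b r k < 2 := by
  induction r generalizing k with
  | zero => exact one_lt_two
  | succ r ih =>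
    rw [V]
    by_cases q : k = j
    · rw [V_one fun i _ _ => h i (by omega) (by omega) (by omega), mul_one, q]; exact h1 q.le (by omega)
    · have := ih (k := k + 1) (fun i _ _ => h i (by omega) (by omega)) fun _ _ => h1 (by omega) (by omega)
      have := h k le_rfl (by omega) q
      have := h0 k
      rcases this.1.eq_or_lt with e | e <;> nlinarith

theorem V_ge {r k j} (h0 : ∀ i, 0 ≤ a i ∧ 0 ≤ b i) (h1 : k ≤ j) (h : ∀ i, k ≤ i → i < j → b i = 1)
    (h2 : j = k + r ∨ j < k + r ∧ 1 ≤ a j) : 1 ≤ V a b r k := by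
  induction r generalizing k with
  | zero => exact le_rfl
  | succ r ih =>
    rw [V]
    rcases h1.eq_or_lt with rfl | l
    · exact le_add_of_le_of_nonneg (h2.resolve_left (by omega)).2 (mul_nonneg (h0 k).2 (V_nn h0 _ _))
    · rw [h k le_rfl l, one_mul]
      exact le_add_of_nonneg_of_le (h0 k).1 (ih l (fun i _ => h i (by omega)) (h2.imp (by omega) (.imp_left (by omega))))

end Pool.Agent.H.MP_c85d9c_lc
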