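import Pool.Agent.H.MP_c85d9c_lc.A

namespace Pool.Agent.H.MP_c85d9c_lc

def GG (n k : ℕ) (P : ℕ → Prop) : Prop := ∀ i < k, P (5 * i) ∧ (i < n → P (5 * i + 1))
def CC (n m : ℕ) (P : ℕ → Prop) : Prop := ∃ j ≤ m, (∀ i < j, P (5 * (n + i) + 1)) ∧ (j < m → P (5 * (n + j) + 2))
def Own (n m : ℕ) (L : ℕ → ℕ → ℕ) (P : ℕ → Prop) : Prop :=
  (∃ i < n, GG n i P ∧ (P (5 * i + 3) ∧ P (5 * i + 4) ∨ P (5 * i + 2) ∧
    (P (5 * i) ∨ (P (5 * i + 3) ∨ P (5 * i + 4)) ∧ CC n m P))) ∨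
  (∃ j < m, GG n (n + j) P ∧ P (5 * (n + j) + 2) ∧ (P (5 * (n + j) + 1) ∨ ∃ t < 3, P (L j t))) ∨ GG n (n + m) P

variable {n m : ℕ} {L : ℕ → ℕ → ℕ} {E : List (List ℕ)}

def ch (n m : ℕ) (ν : ℕ → ℚ) : ℚ := V (fun i => ν (5 * i + 2)) (fun i => ν (5 * i + 1)) m n
def aa (n k : ℕ) (ν : ℕ → ℚ) : ℚ := ν (5 * k + 2) + if k < n then ν (5 * k + 3) * ν (5 * k + 4) else 0
def bb (n k : ℕ) (ν : ℕ → ℚ) : ℚ := ν (5 * k) * if k < n then ν (5 * k + 1) else 1

theorem good_ch : Good {v | 5 * n ≤ v ∧ v % 5 ≠ 0} (ch n m) :=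
  Good.chain (S := fun k => {v | 5 * k ≤ v ∧ v % 5 ≠ 0}) (fun k => .var (by simp [Nat.add_mod]))
    (fun k F h => h.mul (by simp; omega) (by simp [Nat.add_mod]) fun v => by simp; omega) m n

theorem ch_ge {ν : ℕ → ℚ} (h0 : ∀ v, 0 ≤ ν v) (h : CC n m (ν · = 1)) : 1 ≤ ch n m ν := by
  obtain ⟨j, a, b, c⟩ := h
  exact V_ge (j := n + j) (fun _ => ⟨h0 _, h0 _⟩) (by omega)
    (fun i _ _ => by have := b (i - n) (by omega); rwa [show n + (i - n) = i by omega] at this)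
    (a.eq_or_lt.imp (by omega) fun a => ⟨by omega, (c a).ge⟩)

abbrev SS (k : ℕ) : Set ℕ := {v | 5 * k ≤ v ∨ 3 ≤ v % 5}

theorem good_aa (k) : Good (SS k) (aa n k) := (Good.var (by simp)).add (by
  split_ifs
  exacts [(Good.var (T := {5 * k + 4}) rfl).mul (by simp) (by simp) (by simp), .const 0 le_rfl])

theorem nn {ν : ℕ → ℚ} (h : ∀ v, 0 ≤ ν v) (k) : 0 ≤ aa n k ν ∧ 0 ≤ bb n k ν := by
  have := h (5 * k); have := h (5 * k + 1); have := h (5 * k + 2); have := h (5 * k + 3); have := h (5 * k + 4)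
  unfold aa bb; split_ifs <;> constructor <;> positivity

theorem lose (hE : ∀ P : ℕ → Prop, (∃ e ∈ E, ∀ v ∈ e, P v) → Own n m L P) {μ : ℕ → ℚ} (k : ℕ) (hk : k < n + m)
    (A : (ℕ → ℚ) → ℚ) (g : Good (SS k) A)
    (c1 : ∀ ν : ℕ → ℚ, (∀ v, 0 ≤ ν v) → k < n → ν (5 * k + 3) = 1 ∧ ν (5 * k + 4) = 1 ∨ ν (5 * k + 2) = 1 ∧
      (ν (5 * k) = 1 ∨ (ν (5 * k + 3) = 1 ∨ ν (5 * k + 4) = 1) ∧ 1 ≤ ch n m ν) → 1 ≤ A ν)
    (c2 : ∀ ν : ℕ → ℚ, (∀ v, 0 ≤ ν v) → n ≤ k → ν (5 * k + 2) = 1 →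
      (ν (5 * k + 1) = 1 ∨ ∃ t < 3, ν (L (k - n) t) = 1) → 1 ≤ A ν)
    (h1 : ∀ i < k, aa n i μ + bb n i μ = 1 ∧ 0 < bb n i μ)
    (h2 : A μ + bb n k μ * V (aa n · μ) (bb n · μ) (n + m - (k + 1)) (k + 1) < 1) : Lose E μ := by
  have G : ∀ i, Good (SS (min i k)) fun ν => if i = k then A ν else aa n i ν := fun i => by
    split_ifs with q
    · simpa [q] using g
    · exact (good_aa i).sub fun v => by simp only [Set.mem_setOf_eq]; omega
  have G' : ∀ i, Good (SS i) fun ν => if i = k then A ν else aa n i ν := fun i => by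
    split_ifs with q
    exacts [q ▸ g, good_aa i]
  refine ⟨SS 0, fun ν => V (fun i => if i = k then A ν else aa n i ν) (bb n · ν) (n + m) 0, .chain (S := SS) G'
    (fun i F h => ?_) _ _, fun ν h0 h => ?_, V_lt (j := k) k.zero_le (by omega) (fun i _ h => by
      simpa [h.ne] using h1 i h) ?_⟩
  · have s : SS (i + 1) ⊆ {v | 5 * i < v ∨ 3 ≤ v % 5} := fun v => by simp only [Set.mem_setOf_eq]; omega
    unfold bb
    split_ifs
    · simpa only [mul_assoc] using (h.mul (v := 5 * i + 1) (by simp; omega) (by simp) s).mul (T := SS i) (v := 5 * i)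
        (by simp) (by simp) fun v => by simp only [Set.mem_setOf_eq]; omega
    · simpa only [mul_one] using h.mul (T := SS i) (v := 5 * i) (by simp) (by simp) fun v => by
        simp only [Set.mem_setOf_eq]; omega
  · have z : ∀ i, 0 ≤ (if i = k then A ν else aa n i ν) ∧ 0 ≤ bb n i ν := fun i =>
      ⟨((G' i).1 ν ν h0 h0 fun _ _ => le_rfl).1, (nn h0 i).2⟩
    have y : ∀ j, GG n j (ν · = 1) → ∀ i, 0 ≤ i → i < j → bb n i ν = 1 := fun j h i _ l => by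
      have := h i l
      unfold bb; split_ifs <;> simp_all
    obtain ⟨i, a, b, c⟩ | ⟨j, a, b, c, d⟩ | b := hE _ h
    · refine V_ge (j := i) z i.zero_le (y i b) (.inr ⟨by omega, ?_⟩)
      split_ifs with q
      · exact c1 ν h0 (q ▸ a) (q ▸ c.imp_right (.imp_right (.imp_right (.imp_right (ch_ge h0)))))
      · have := mul_nonneg (h0 (5 * i + 3)) (h0 (5 * i + 4))
        have := h0 (5 * i + 2)
        rw [aa, if_pos a]
        obtain c | c := c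
        · rw [c.1, c.2]; linarith
        · linarith [c.1]
    · refine V_ge (j := n + j) z (by omega) (y _ b) (.inr ⟨by omega, ?_⟩)
      split_ifs with q
      · subst q; exact c2 ν h0 (by omega) c (by simpa using d)
      · rw [aa, if_neg (by omega), c, add_zero]
    · exact V_ge (j := n + m) z (by omega) (y _ b) (.inl (by omega))
  · have : ∀ r j, k < j → V (fun i => if i = k then A μ else aa n i μ) (bb n · μ) r j = V (aa n · μ) (bb n · μ) r j :=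
      fun r => by
        induction r with
        | zero => intros; rfl
        | succ r ih => intro j h; rw [V, V, ih _ (by omega), if_neg h.ne']
    rwa [if_pos rfl, zero_add, this _ _ (by omega)]

theorem lose0 (hE : ∀ P : ℕ → Prop, (∃ e ∈ E, ∀ v ∈ e, P v) → Own n m L P) {μ : ℕ → ℚ} (k : ℕ) (hk : k < n + m)
    (h1 : ∀ i < k, aa n i μ + bb n i μ = 1 ∧ 0 < bb n i μ)
    (h2 : aa n k μ + bb n k μ * V (aa n · μ) (bb n · μ) (n + m - (k + 1)) (k + 1) < 1) : Lose E μ :=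
  lose hE k hk _ (good_aa k) (fun ν h0 a c => by
    have := mul_nonneg (h0 (5 * k + 3)) (h0 (5 * k + 4))
    have := h0 (5 * k + 2)
    rw [aa, if_pos a]
    obtain c | c := c
    · rw [c.1, c.2]; linarith
    · linarith [c.1]) (fun ν _ a c _ => by rw [aa, if_neg a.not_gt, c, add_zero]) h1 h2

def S0 (ν : ℕ → ℚ) (k : ℕ) : Prop := ν (5 * k) = 1 / 2 ∧ ν (5 * k + 1) = 1 / 2 ∧ ν (5 * k + 2) = 1 / 2 ∧
  ν (5 * k + 3) = 1 / 2 ∧ ν (5 * k + 4) = 1 / 2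

def Hon (n : ℕ) (ν : ℕ → ℚ) (k : ℕ) : Prop :=
  k < n ∧ (S0 ν k ∨ (ν (5 * k + 3) = 0 ∨ ν (5 * k + 4) = 0) ∧ (ν (5 * k + 2) = 1 / 2 ∧
    (ν (5 * k) = 1 ∧ ν (5 * k + 1) = 1 / 2 ∨ ν (5 * k) = 1 / 2 ∧ ν (5 * k + 1) = 1) ∨
      ν (5 * k + 2) = 0 ∧ ν (5 * k) = 1 ∧ ν (5 * k + 1) = 1)) ∨
  ¬ k < n ∧ (ν (5 * k + 2) = 1 / 2 ∧ ν (5 * k) = 1 / 2 ∨ ν (5 * k + 2) = 0 ∧ ν (5 * k) = 1)

def Act (n : ℕ) (ν : ℕ → ℚ) (k v : ℕ) : Prop := v = 5 * k ∨ v = 5 * k + 2 ∨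
  k < n ∧ (v = 5 * k + 1 ∨ S0 ν k ∧ (v = 5 * k + 3 ∨ v = 5 * k + 4))

variable {ν μ : ℕ → ℚ} {p q k : ℕ}

theorem Hon.sum (h : Hon n ν k) : aa n k ν + bb n k ν = 1 ∧ 0 < bb n k ν := by
  unfold aa bb
  obtain ⟨a, ⟨b, c, d, e, f⟩ | ⟨b | b, ⟨c, ⟨d, e⟩ | ⟨d, e⟩⟩ | ⟨c, d, e⟩⟩⟩ | ⟨a, ⟨b, c⟩ | ⟨b, c⟩⟩ := h <;>
    simp only [*, if_true, if_false] <;> norm_num

theorem Mv.zero (h : Mv ν p q μ) {v} (e : ν v = 0) : μ v = 0 :=
  (h.e v (fun z => by have := h.a; rw [← z, e] at this; norm_num at this)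
    fun z => by have := h.b; rw [← z, e] at this; norm_num at this).trans e

theorem Mv.one (h : Mv ν p q μ) {v} (e : ν v = 1) : μ v = 1 :=
  (h.e v (fun z => by have := h.a; rw [← z, e] at this; norm_num at this)
    fun z => by have := h.b; rw [← z, e] at this; norm_num at this).trans e

theorem S0.stay (h : S0 ν k) (hk : k < n) (M : Mv ν p q μ) (a : ¬ Act n ν k p) (b : ¬ Act n ν k q) : S0 μ k := by
  simp only [Act, h, hk, true_and] at a b
  unfold S0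
  rwa [M.e _ (by omega) (by omega), M.e _ (by omega) (by omega), M.e _ (by omega) (by omega), M.e _ (by omega) (by omega),
    M.e _ (by omega) (by omega)]

theorem Hon.stay (h : Hon n ν k) (M : Mv ν p q μ) (a : ¬ Act n ν k p) (b : ¬ Act n ν k q) : Hon n μ k := by
  have e0 := M.e (5 * k) (fun z => a (.inl z.symm)) fun z => b (.inl z.symm)
  have e2 := M.e (5 * k + 2) (fun z => a (.inr (.inl z.symm))) fun z => b (.inr (.inl z.symm))
  obtain ⟨c, h | h⟩ | h := h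
  · exact .inl ⟨c, .inl (h.stay c M a b)⟩
  · have e1 := M.e (5 * k + 1) (fun z => a (.inr (.inr ⟨c, .inl z.symm⟩))) fun z => b (.inr (.inr ⟨c, .inl z.symm⟩))
    exact .inl ⟨c, .inr ⟨h.1.imp M.zero M.zero, by rw [e0, e1, e2]; exact h.2⟩⟩
  · exact .inr (by rwa [e0, e2])

theorem Hon.low (h : Hon n ν k) (M : Mv ν p q μ) (a : Act n ν k p) (b : ¬ Act n ν k q) {t : ℚ} (t0 : 0 ≤ t) (t2 : t < 2) :
    aa n k μ + bb n k μ * t < 1 := by
  have c := M.c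
  have d := M.a
  have e := fun v h => M.e v h
  unfold aa bb
  obtain ⟨l, h | ⟨z, h⟩⟩ | ⟨l, h⟩ := h
  · simp only [Act, h, l, true_and, not_or] at a b
    obtain ⟨h0, h1, h2, h3, h4⟩ := h
    obtain rfl | rfl | rfl | rfl | rfl := a <;> simp (disch := omega) only [l, if_true, c, e, h0, h1, h2, h3, h4] <;> linarith
  · have z' : μ (5 * k + 3) * μ (5 * k + 4) = 0 := mul_eq_zero.2 (z.imp M.zero M.zero)
    have s : ¬ S0 ν k := fun s => by obtain z | z := z <;> simp [s.2.2.2.1, s.2.2.2.2] at z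
    simp only [Act, s, l, true_and, not_or, false_and, or_false] at a b
    rw [if_pos l, if_pos l, z']
    obtain ⟨h0, ⟨h1, h2⟩ | ⟨h1, h2⟩⟩ | ⟨h0, h1, h2⟩ := h <;> obtain rfl | rfl | rfl := a <;>
      simp (disch := omega) only [c, e, h0, h1, h2] <;> linarith
  · simp only [Act, l, not_or, false_and, or_false] at a b
    obtain ⟨h0, h1⟩ | ⟨h0, h1⟩ := h <;> obtain rfl | rfl := a <;>
      simp (disch := omega) only [l, if_false, c, e, h0, h1] <;> linarith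

theorem Hon.high (h : Hon n ν k) (M : Mv ν p q μ) (a : ¬ Act n ν k p) (b : Act n ν k q) : aa n k μ + bb n k μ < 2 := by
  have c := M.d
  have d := M.b
  have e := fun v h h' => M.e v h' h
  unfold aa bb
  obtain ⟨l, h | ⟨z, h⟩⟩ | ⟨l, h⟩ := h
  · simp only [Act, h, l, true_and, not_or] at a b
    obtain ⟨h0, h1, h2, h3, h4⟩ := h
    obtain rfl | rfl | rfl | rfl | rfl := b <;> simp (disch := omega) only [l, if_true, c, e, h0, h1, h2, h3, h4] <;> linarith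
  · have z' : μ (5 * k + 3) * μ (5 * k + 4) = 0 := mul_eq_zero.2 (z.imp M.zero M.zero)
    have s : ¬ S0 ν k := fun s => by obtain z | z := z <;> simp [s.2.2.2.1, s.2.2.2.2] at z
    simp only [Act, s, l, true_and, not_or, false_and, or_false] at a b
    rw [if_pos l, if_pos l, z']
    obtain ⟨h0, ⟨h1, h2⟩ | ⟨h1, h2⟩⟩ | ⟨h0, h1, h2⟩ := h <;> obtain rfl | rfl | rfl := b <;>
      simp (disch := omega) only [c, e, h0, h1, h2] <;> linarith
  · simp only [Act, l, not_or, false_and, or_false] at a b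
    obtain ⟨h0, h1⟩ | ⟨h0, h1⟩ := h <;> obtain rfl | rfl := b <;>
      simp (disch := omega) only [l, if_false, c, e, h0, h1] <;> linarith

end Pool.Agent.H.MP_c85d9c_lc
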