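import Pool.Agent.H.MP_c85d9c_lc.B

namespace Pool.Agent.H.MP_c85d9c_lc

variable {n m : ℕ} {L : ℕ → ℕ → ℕ} {E : List (List ℕ)} {ν μ μ' : ℕ → ℚ} {p q k : ℕ}

def MB (n m : ℕ) (ν : ℕ → ℚ) : Prop := ∀ j, n ≤ j → j < n + m → ν (5 * j + 2) = 1 / 2 ∧ ν (5 * j + 1) = 1 / 2

structure Inv (n m : ℕ) (ν : ℕ → ℚ) : Prop where
  pos : ∀ v, 0 ≤ ν v
  hon : ∀ k < n + m, Hon n ν k
  s0 : ∃ i < n, S0 ν i
  md : ch n m ν < 1 ∨ MB n m ν

theorem Act.lev {v} (h : Act n ν k v) : v / 5 = k := by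
  obtain h | h | ⟨_, h | ⟨_, h | h⟩⟩ := h <;> omega

theorem Inv.rest (h : Inv n m ν) (M : Mv ν p q μ) {i} (a : p / 5 ≠ i) (b : q / 5 ≠ i) (c : i < n + m) : Hon n μ i :=
  (h.hon i c).stay M (fun e => a e.lev) fun e => b e.lev

theorem Inv.above (h : Inv n m ν) (M : Mv ν p q μ) (a : p / 5 = k) (b : q / 5 = k) :
    V (aa n · μ) (bb n · μ) (n + m - (k + 1)) (k + 1) = 1 :=
  V_one fun i _ _ => (h.rest M (by omega) (by omega) (by omega)).sum.1

theorem Inv.noown (h : Inv n m ν) : ¬ Own n m L (ν · = 1) := by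
  obtain ⟨i, a, b, -⟩ := h.s0
  have z : ∀ j, i < j → ¬ GG n j (ν · = 1) := fun j c d => by linarith [(d i c).1]
  rintro (⟨j, c, -, d⟩ | ⟨j, -, d, -⟩ | d)
  · obtain ⟨-, e | ⟨e, f⟩⟩ | e := h.hon j (by omega)
    · obtain ⟨-, -, e, f, -⟩ := e
      obtain d | d := d <;> linarith [d.1]
    · obtain d | d := d
      · obtain e | e := e <;> linarith [d.1, d.2]
      · obtain f | f := f <;> linarith [d.1, f.1]
    · exact e.1 c
  · exact z _ (by omega) d
  · exact z _ (by omega) d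

theorem Inv.first (hE : ∀ P : ℕ → Prop, (∃ e ∈ E, ∀ v ∈ e, P v) → Own n m L P) (h : Inv n m ν) (M : Mv ν p q μ)
    (hk : k < n + m) (a : Act n ν k p) (b : ∀ i ≤ k, ¬ Act n ν i q) : Lose E μ := by
  have c := a.lev
  refine lose0 hE k hk (fun i l => ((h.hon i (by omega)).stay M (fun e => by have := e.lev; omega) (b i l.le)).sum)
    ((h.hon k hk).low M a (b k le_rfl) (V_nn (nn (M.nn h.pos)) _ _) (V_two (j := q / 5) (nn (M.nn h.pos))
      (fun i _ _ _ => (h.rest M (by omega) (by omega) (by omega)).sum.1) fun _ _ => ?_))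
  have d : ¬ Act n ν (q / 5) p := fun e => by have := e.lev; omega
  by_cases e : Act n ν (q / 5) q
  · exact (h.hon _ (by omega)).high M d e
  · linarith [((h.hon _ (by omega)).stay M d e).sum.1]

theorem MB.lt (h : MB n m ν) (M : Mv ν p q μ) (a : n ≤ k) (b : k < n + m)
    (c : p = 5 * k + 1 ∧ (q % 5 = 1 → n ≤ q / 5 → p < q) ∧ (q % 5 = 2 → q / 5 < n ∨ n + m ≤ q / 5) ∨
      p = 5 * k + 2 ∧ q = 5 * k) : ch n m μ < 1 := by
  refine V_lt (j := k) a b (fun i _ _ => ?_) ?_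
  · have := h i (by omega) (by omega)
    rw [M.e _ (by omega) (by omega), M.e _ (by omega) (by omega), this.1, this.2]; norm_num
  · have := h k a b
    obtain ⟨rfl, c⟩ | ⟨rfl, rfl⟩ := c
    · rw [M.c, M.e _ (by omega) (by omega), this.1]; norm_num
    · rw [M.c, M.e _ (by omega) (by omega), this.2, V_one fun i _ _ => ?_]
      · norm_num
      have := h i (by omega) (by omega)
      rw [M.e _ (by omega) (by omega), M.e _ (by omega) (by omega), this.1, this.2]; norm_num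

theorem Inv.idle (h : Inv n m ν) (M : Mv ν p q μ) (M' : Mv ν q p μ') (a : ∀ i < n + m, ¬ Act n ν i p)
    (b : ∀ i < n + m, ¬ Act n ν i q) : Inv n m μ ∨ Inv n m μ' := by
  have z : ∀ {p q μ}, Mv ν p q μ → (∀ i < n + m, ¬ Act n ν i p) → (∀ i < n + m, ¬ Act n ν i q) →
      (ch n m μ < 1 ∨ MB n m μ) → Inv n m μ := fun M a b c => ⟨M.nn h.pos, fun k l => (h.hon k l).stay M (a k l) (b k l),
    h.s0.imp fun i e => ⟨e.1, e.2.stay e.1 M (a i (by omega)) (b i (by omega))⟩, c⟩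
  obtain c | c := h.md
  · have := (good_ch (n := n) (m := m)).2 _ _ _ _ _ h.pos M M'
    by_cases d : ch n m μ < 1
    exacts [.inl (z M a b (.inl d)), .inr (z M' b a (.inl (by linarith)))]
  have a' : p % 5 = 2 → p / 5 < n ∨ n + m ≤ p / 5 := fun e => .inr (not_lt.1 fun l => a _ l (.inr (.inl (by omega))))
  have b' : q % 5 = 2 → q / 5 < n ∨ n + m ≤ q / 5 := fun e => .inr (not_lt.1 fun l => b _ l (.inr (.inl (by omega))))
  have := M.ne
  by_cases d : p % 5 = 1 ∧ n ≤ p / 5 ∧ p / 5 < n + m ∧ (q % 5 = 1 → n ≤ q / 5 → p < q)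
  · exact .inl (z M a b (.inl (c.lt M d.2.1 d.2.2.1 (.inl ⟨by omega, d.2.2.2, b'⟩))))
  by_cases e : q % 5 = 1 ∧ n ≤ q / 5 ∧ q / 5 < n + m ∧ (p % 5 = 1 → n ≤ p / 5 → q < p)
  · exact .inr (z M' b a (.inl (c.lt M' e.2.1 e.2.2.1 (.inl ⟨by omega, e.2.2.2, a'⟩))))
  refine .inl (z M a b (.inr fun j _ _ => ?_))
  rw [M.e _ (by omega) (by omega), M.e _ (by omega) (by omega)]
  exact c j ‹_› ‹_›

/-- a move inside a variable gadget keeps the mode -/
theorem Inv.mode (h : Inv n m ν) (M : Mv ν p q μ) (a : p < 5 * n) (b : q % 5 = 0 ∨ q < 5 * n) (c : ch n m ν < 1) :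
    ch n m μ < 1 :=
  (good_ch.1 μ ν (M.nn h.pos) h.pos fun v e => (M.e v (by have := e.1; omega) (by have := e.1; have := e.2; omega)).le).2.trans_lt c

theorem MB.stay (h : MB n m ν) (M : Mv ν p q μ) (a : p < 5 * n) (b : q < 5 * n) : MB n m μ := fun j _ _ => by
  rw [M.e _ (by omega) (by omega), M.e _ (by omega) (by omega)]
  exact h j ‹_› ‹_›

theorem Inv.keep (h : Inv n m ν) (M : Mv ν p q μ) (a : p / 5 = k) (b : q / 5 = k) (c : Hon n μ k)
    (d : ∃ i < n, i ≠ k ∧ S0 ν i) (e : ch n m μ < 1 ∨ MB n m μ) : Inv n m μ :=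
  ⟨M.nn h.pos, fun i l => if z : i = k then z ▸ c else h.rest M (by omega) (by omega) l,
    d.imp fun i f => ⟨f.1, f.2.2.stay f.1 M (fun e => by have := e.lev; omega) fun e => by have := e.lev; omega⟩, e⟩

theorem Inv.same (hE : ∀ P : ℕ → Prop, (∃ e ∈ E, ∀ v ∈ e, P v) → Own n m L P) (h : Inv n m ν) (M : Mv ν p q μ)
    (hk : k < n + m) (a : p / 5 = k) (b : q / 5 = k) (c : aa n k μ + bb n k μ < 1) : Lose E μ :=
  lose0 hE k hk (fun i l => (h.rest M (by omega) (by omega) (by omega)).sum) (by rwa [h.above M a b, mul_one])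

/-- a literal and a gate of a fresh variable are offered -/
theorem Inv.lit (hE : ∀ P : ℕ → Prop, (∃ e ∈ E, ∀ v ∈ e, P v) → Own n m L P) (hL : ∀ j t, 3 ≤ L j t % 5)
    (hU : ∀ ν : ℕ → ℚ, (∀ i < n, ν (5 * i + 3) = 0 ∨ ν (5 * i + 4) = 0) → ∃ j < m, ∀ t < 3, ν (L j t) = 0)
    (h : Inv n m ν) (M : Mv ν p q μ) (M' : Mv ν q p μ') (hk : k < n) (s : S0 ν k) (a : p = 5 * k + 3 ∨ p = 5 * k + 4)
    (b : q = 5 * k ∨ q = 5 * k + 1) : (Inv n m μ ∨ Lose E μ) ∨ Lose E μ' := by
  obtain ⟨h0, h1, h2, h3, h4⟩ := s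
  have e := M.e
  have e' := M'.e
  have g : Good {v | 5 * n ≤ v ∧ v % 5 ≠ 0} (ch n m) := good_ch
  obtain c | c := h.md
  · obtain rfl | rfl := b
    · obtain ⟨r, u, w⟩ : ∃ r, (r = 5 * k + 3 ∨ r = 5 * k + 4) ∧ r ≠ p := ⟨10 * k + 7 - p, by omega⟩
      refine .inr (lose hE k (by omega) (fun ν => ν r + ν (5 * k + 2) * ch n m ν + ν (5 * k))
        (((Good.var (by simp; omega)).add (g.mul (by simp; omega) (by simp) fun v => by
          simp only [Set.mem_setOf_eq]; omega)).add (.var (by simp))) (fun ν h0 _ c => ?_) (by omega)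
        (fun i l => (h.rest M' (by omega) (by omega) (by omega)).sum) ?_)
      · have := h0 r; have := h0 (5 * k); have := mul_nonneg (h0 (5 * k + 2)) (g.1 ν ν h0 h0 fun _ _ => le_rfl).1
        obtain c | ⟨c, d | d⟩ := c
        · obtain rfl | rfl := u <;> linarith [c.1, c.2]
        · linarith
        · rw [c]; linarith [d.2]
      · have : ch n m μ' < 1 := (g.1 μ' ν (M'.nn h.pos) h.pos fun v e =>
          (e' v (by have := e.1; omega) (by have := e.1; omega)).le).2.trans_lt c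
        have : μ' r = 1 / 2 := by rw [e' r (by omega) w]; obtain rfl | rfl := u <;> assumption
        rw [bb, M'.c, e' (5 * k + 2) (by omega) (by omega), h2]; linarith
    · obtain ⟨r, u, w⟩ : ∃ r, (r = 5 * k + 3 ∨ r = 5 * k + 4) ∧ r ≠ p := ⟨10 * k + 7 - p, by omega⟩
      refine .inl (.inr (lose hE k (by omega)
        (fun ν => ν p + ν (5 * k + 2) * (ν r * ch n m ν) + ν (5 * k) * ν (5 * k + 2))
        (((Good.var (by simp; omega)).add ((g.mul (T := {v | v = r ∨ 5 * n ≤ v}) (by simp; omega) (by simp) fun v => by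
          simp only [Set.mem_setOf_eq]; omega).mul (by simp; omega) (by simp) fun v => by
          simp only [Set.mem_setOf_eq]; omega)).add ((Good.var (T := {5 * k + 2}) rfl).mul (by simp) (by simp) (by simp)))
        (fun ν h0 _ c => ?_) (by omega) (fun i l => (h.rest M (by omega) (by omega) (by omega)).sum) ?_))
      · have := h0 p; have := mul_nonneg (h0 (5 * k)) (h0 (5 * k + 2))
        have := mul_nonneg (h0 (5 * k + 2)) (mul_nonneg (h0 r) (g.1 ν ν h0 h0 fun _ _ => le_rfl).1)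
        obtain c | ⟨c, d | ⟨d, f⟩⟩ := c
        · obtain rfl | rfl := a <;> linarith [c.1, c.2]
        · simp only [c, d] at *; linarith
        · by_cases z : ν p = 1
          · linarith
          have : ν r = 1 := by obtain rfl | rfl := a <;> obtain rfl | rfl := u <;> tauto
          simp only [c, this] at *; linarith
      · have := h.mode M (by omega) (by omega) c
        have y : μ r = 1 / 2 := by rw [e r w (by omega)]; obtain rfl | rfl := u <;> assumption
        rw [h.above M (by omega) (by omega), bb, if_pos hk, M.c, M.d, e (5 * k + 2) (by omega) (by omega),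
          e (5 * k) (by omega) (by omega), h2, h0, y]; linarith
  have c' := c.stay M (by omega) (by omega)
  have a' : μ (5 * k + 3) = 0 ∨ μ (5 * k + 4) = 0 := by obtain rfl | rfl := a <;> simp [M.c]
  have H : Hon n μ k := .inl ⟨hk, .inr ⟨a', .inl ⟨by rwa [e _ (by omega) (by omega)], by
    obtain rfl | rfl := b
    exacts [.inl ⟨M.d, by rwa [e _ (by omega) (by omega)]⟩, .inr ⟨by rwa [e _ (by omega) (by omega)], M.d⟩]⟩⟩⟩
  by_cases d : ∃ i < n, i ≠ k ∧ S0 ν i
  · exact .inl (.inl (h.keep M (by omega) (by omega) H d (.inr c')))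
  have H' : ∀ i < n + m, Hon n μ i := fun i l => if z : i = k then z ▸ H else h.rest M (by omega) (by omega) l
  obtain ⟨j, l, z⟩ := hU μ fun i l => by
    by_cases y : i = k
    · exact y ▸ a'
    obtain ⟨-, s | s⟩ | s := h.hon i (by omega)
    exacts [(d ⟨i, l, y, s⟩).elim, s.1.imp M.zero M.zero, (s.1 l).elim]
  refine .inl (.inr (lose hE (n + j) (by omega)
    (fun ν => ν (5 * (n + j) + 1) * ν (5 * (n + j) + 2) + ν (L j 0) + ν (L j 1) + ν (L j 2))
    (((((Good.var (T := {5 * (n + j) + 2}) rfl).mul (by simp) (by simp) (by simp)).add (.var (.inr (hL _ _)))).add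
      (.var (.inr (hL _ _)))).add (.var (.inr (hL _ _)))) (by omega) (fun ν h0 _ c d => ?_)
    (fun i _ => (H' i (by omega)).sum) ?_))
  · have := h0 (L j 0); have := h0 (L j 1); have := h0 (L j 2); have := h0 (5 * (n + j) + 1)
    rw [c, Nat.add_sub_cancel_left] at *
    obtain d | ⟨t, u, d⟩ := d
    · linarith
    · interval_cases t <;> linarith
  · have y := c' (n + j) (by omega) (by omega)
    rw [V_one fun i _ _ => (H' i (by omega)).sum.1, z 0 (by omega), z 1 (by omega), z 2 (by omega), bb, if_neg (by omega),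
      y.1, y.2]
    obtain s | ⟨-, s | s⟩ := H' (n + j) (by omega) <;> linarith [s.1, s.2]

theorem Inv.step (hE : ∀ P : ℕ → Prop, (∃ e ∈ E, ∀ v ∈ e, P v) → Own n m L P) (hL : ∀ j t, 3 ≤ L j t % 5)
    (hU : ∀ ν : ℕ → ℚ, (∀ i < n, ν (5 * i + 3) = 0 ∨ ν (5 * i + 4) = 0) → ∃ j < m, ∀ t < 3, ν (L j t) = 0)
    (h : Inv n m ν) (M : Mv ν p q μ) (M' : Mv ν q p μ') : (Inv n m μ ∨ Lose E μ) ∨ Inv n m μ' ∨ Lose E μ' := by
  by_cases a : p / 5 < n + m ∧ Act n ν (p / 5) p
  swap
  · have a' : ∀ i < n + m, ¬ Act n ν i p := fun i l e => a (e.lev ▸ ⟨l, e⟩)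
    by_cases b : q / 5 < n + m ∧ Act n ν (q / 5) q
    · exact .inr (.inr (h.first hE M' b.1 b.2 fun i _ => a' i (by omega)))
    · exact (h.idle M M' a' fun i l e => b (e.lev ▸ ⟨l, e⟩)).imp .inl .inl
  by_cases b : ∀ i ≤ p / 5, ¬ Act n ν i q
  · exact .inl (.inr (h.first hE M a.1 a.2 b))
  push Not at b
  obtain ⟨k, l0, b⟩ := b
  rcases l0.lt_or_eq with l | l
  · exact .inr (.inr (h.first hE M' (by omega) b fun i _ e => by have := e.lev; omega))
  rw [← l] at a
  obtain ⟨hk, a⟩ := a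
  clear l l0
  wlog w : p < q generalizing p q μ μ'
  · exact (this M' M a b (by have := M.ne; omega)).symm
  have u := a.lev
  have v := b.lev
  have e := fun v h => M.e v h
  have e' := fun v h => M'.e v h
  have S := h.same hE M hk u v
  have S' := h.same hE M' hk v u
  have m1 := M.a
  have m2 := M.b
  unfold aa bb at S S'
  obtain ⟨l, s | ⟨z, s⟩⟩ | ⟨l, s⟩ := h.hon k hk
  · simp only [Act, s, l, true_and, if_true] at a b S S'
    have X := fun a b => (h.lit hE hL hU M' M l s a b).symm.imp_left (Or.inr (a := Inv n m μ))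
    obtain ⟨h0, h1, h2, h3, h4⟩ := s
    obtain rfl | rfl | rfl | rfl | rfl := a <;> obtain rfl | rfl | rfl | rfl | rfl := b <;> first
      | omega
      | exact X (by omega) (by omega)
      | (refine .inl (.inr (S ?_)); simp (disch := omega) only [M.c, M.d, e, h0, h1, h2, h3, h4]; norm_num; done)
      | (refine .inr (.inr (S' ?_)); simp (disch := omega) only [M'.c, M'.d, e', h0, h1, h2, h3, h4]; norm_num)
  · have s' : ¬ S0 ν k := fun s => by obtain z | z := z <;> simp [s.2.2.2.1, s.2.2.2.2] at z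
    simp only [Act, s', l, true_and, false_and, or_false] at a b
    obtain rfl : q = 5 * k + 2 := by
      obtain rfl | rfl | rfl := a <;> obtain rfl | rfl | rfl := b <;> first
        | omega
        | obtain ⟨-, s | s⟩ | ⟨-, s⟩ := s <;> linarith [s.1, s.2]
    refine .inr (.inl (h.keep M' v u (.inl ⟨l, .inr ⟨z.imp M'.zero M'.zero, .inr ⟨M'.c, ?_⟩⟩⟩)
      (h.s0.imp fun i f => ⟨f.1, fun y => s' (y ▸ f.2), f.2⟩)
      (h.md.imp (h.mode M' (by omega) (by omega)) (·.stay M' (by omega) (by omega)))))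
    obtain rfl | rfl | rfl := a <;> obtain ⟨-, s | s⟩ | ⟨-, s⟩ := s <;> first
      | omega
      | linarith [s.1, s.2]
      | exact ⟨M'.d, M'.one s.2⟩
      | exact ⟨M'.one s.1, M'.d⟩
  · simp only [Act, l, false_and, or_false] at a b
    obtain ⟨rfl, rfl⟩ : p = 5 * k ∧ q = 5 * k + 2 := by omega
    refine .inr (.inl (h.keep M' v u (.inr ⟨l, .inr ⟨M'.c, M'.d⟩⟩) (h.s0.imp fun i f => ⟨f.1, by omega, f.2⟩)
      (.inl (h.md.elim (fun c => (good_ch.1 μ' ν (M'.nn h.pos) h.pos fun v y => ?_).2.trans_lt c)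
        (·.lt M' (not_lt.1 l) hk (.inr ⟨rfl, rfl⟩))))))
    by_cases y' : v = 5 * k + 2
    · rw [y', M'.c]; exact h.pos _
    · exact (e' v y' (by have := y.2; omega)).le

end Pool.Agent.H.MP_c85d9c_lc
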