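import Pool.Agent.H.MP_c85d9c_lc.C

namespace Pool.Agent.H.MP_c85d9c_lc

def WW (E : List (List ℕ)) (F O : ℕ → Prop) : Prop :=
  ∀ U W : Finset ℕ, (∀ v, F v → v ∈ U) → (∀ v, O v → v ∈ W) → Win E U W

variable {n m : ℕ} {L : ℕ → ℕ → ℕ} {E : List (List ℕ)} {F O F' O' : ℕ → Prop}

theorem WW.mono (h : WW E F O) (a : ∀ v, F v → F' v) (b : ∀ v, O v → O' v) : WW E F' O' :=
  fun U W c d => h U W (fun v e => c v (a v e)) fun v e => d v (b v e)

theorem WW.offer (p q : ℕ) (a : F p) (b : F q) (c : p ≠ q)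
    (d : WW E (fun v => F v ∧ v ≠ p ∧ v ≠ q) fun v => O v ∨ v = p)
    (e : WW E (fun v => F v ∧ v ≠ p ∧ v ≠ q) fun v => O v ∨ v = q) : WW E F O := fun U W f g =>
  .step p q (f p a) (f q b) c (d _ _ (fun v h => by simp [f v h.1, h.2]) fun v h => h.elim (by simp [g v ·]) (by simp [·]))
    (e _ _ (fun v h => by simp [f v h.1, h.2]) fun v h => h.elim (by simp [g v ·]) (by simp [·]))

theorem WW.done (hE : ∀ P : ℕ → Prop, Own n m L P → ∃ e ∈ E, ∀ v ∈ e, P v) (h : Own n m L O) : WW E F O :=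
  fun U W _ g => .done U W ((hE _ h).imp fun _ => .imp_right fun h v e => g v (h v e))

theorem GG.mono {k} (h : GG n k O) (a : ∀ v, O v → O' v) : GG n k O' :=
  fun i l => ⟨a _ (h i l).1, fun e => a _ ((h i l).2 e)⟩

theorem chain (hE : ∀ P : ℕ → Prop, Own n m L P → ∃ e ∈ E, ∀ v ∈ e, P v)
    (hO : ∀ P : ℕ → Prop, (∀ v, O v → P v) → CC n m P → Own n m L P) (r j : ℕ) (h : j + r = m) :
    WW E (fun v => 5 * (n + j) ≤ v ∧ v < 5 * (n + m) ∧ v % 5 < 3) fun v => O v ∨ 5 * n ≤ v ∧ v < 5 * (n + j) ∧ v % 5 = 1 := by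
  induction r generalizing j with
  | zero => exact .done hE (hO _ (fun _ => .inl) ⟨j, by omega, fun i _ => .inr (by omega), by omega⟩)
  | succ r ih =>
    exact .offer (5 * (n + j) + 1) (5 * (n + j) + 2) (by omega) (by omega) (by omega)
      ((ih (j + 1) (by omega)).mono (by omega) fun v h => h.elim (.inl <| .inl ·) fun _ =>
        if z : v = 5 * (n + j) + 1 then .inr z else .inl (.inr (by omega)))
      (.done hE (hO _ (fun _ h => .inl (.inl h)) ⟨j, by omega, fun i _ => .inl (.inr (by omega)), fun _ => .inr rfl⟩))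

theorem waiter (hE : ∀ P : ℕ → Prop, Own n m L P → ∃ e ∈ E, ∀ v ∈ e, P v) {T : ℕ → Prop}
    (h1 : ∀ i, ¬ T (5 * i + 3) ∨ ¬ T (5 * i + 4)) (h2 : ∀ v, T v → 3 ≤ v % 5) (h3 : ∀ j < m, ∃ t < 3, T (L j t))
    (r k : ℕ) (h : k + r = n + m) :
    WW E (fun v => 5 * k ≤ v ∧ v < 5 * (n + m) ∧ (v % 5 < 3 ∨ v < 5 * n) ∨ T v)
      fun v => v < 5 * k ∧ (v % 5 = 0 ∨ v % 5 = 1 ∧ v < 5 * n) := by
  have G : ∀ k, GG n k fun v => v < 5 * k ∧ (v % 5 = 0 ∨ v % 5 = 1 ∧ v < 5 * n) := fun k i _ => by omega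
  induction r generalizing k with
  | zero => exact .done hE (.inr (.inr (h ▸ G k)))
  | succ r ih =>
    by_cases l : k < n
    · obtain ⟨f, g, a, b⟩ : ∃ f g, (f = 5 * k + 3 ∧ g = 5 * k + 4 ∨ f = 5 * k + 4 ∧ g = 5 * k + 3) ∧ ¬ T f :=
        (h1 k).elim (⟨_, _, .inl ⟨rfl, rfl⟩, ·⟩) (⟨_, _, .inr ⟨rfl, rfl⟩, ·⟩)
      refine .offer f (5 * k) (.inl (by omega)) (.inl (by omega)) (by omega)
        (.offer g (5 * k + 2) ⟨.inl (by omega), by omega⟩ ⟨.inl (by omega), by omega⟩ (by omega)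
          (.done hE (.inl ⟨k, l, (G k).mono fun _ h => .inl (.inl h), .inl (by omega)⟩))
          ((chain hE (fun P c d => .inl ⟨k, l, (G k).mono fun _ h => c _ (.inl (.inl h)), .inr ⟨c _ (.inr rfl),
            .inr ⟨a.imp (fun e => c _ (.inl (.inr e.1.symm))) fun e => c _ (.inl (.inr e.1.symm)), d⟩⟩⟩) m 0
              (by omega)).mono (fun v h => ⟨⟨.inl (by omega), by omega⟩, by omega⟩) fun v h => h.resolve_right (by omega)))
        (.offer (5 * k + 2) (5 * k + 1) ⟨.inl (by omega), by omega⟩ ⟨.inl (by omega), by omega⟩ (by omega)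
          (.done hE (.inl ⟨k, l, (G k).mono fun _ h => .inl (.inl h), .inr ⟨.inr rfl, .inl (.inl (.inr rfl))⟩⟩))
          ((ih (k + 1) (by omega)).mono (fun v h => h.elim (fun _ => ⟨⟨.inl (by omega), by omega⟩, by omega⟩) fun e =>
            have := h2 v e; ⟨⟨.inr e, fun z => b (z ▸ e), by omega⟩, by omega⟩) (by omega)))
    · obtain ⟨j, rfl⟩ := Nat.exists_eq_add_of_le (not_lt.1 l)
      obtain ⟨t, a, b⟩ := h3 j (by omega)
      have := h2 _ b
      exact .offer (5 * (n + j) + 2) (5 * (n + j)) (.inl (by omega)) (.inl (by omega)) (by omega)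
        (.offer (5 * (n + j) + 1) (L j t) ⟨.inl (by omega), by omega⟩ ⟨.inr b, by omega⟩ (by omega)
          (.done hE (.inr (.inl ⟨j, by omega, (G _).mono fun _ h => .inl (.inl h), .inl (.inr rfl), .inl (.inr rfl)⟩)))
          (.done hE (.inr (.inl ⟨j, by omega, (G _).mono fun _ h => .inl (.inl h), .inl (.inr rfl), .inr ⟨t, a, .inr rfl⟩⟩))))
        ((ih (n + j + 1) (by omega)).mono (fun v h => h.elim (fun _ => ⟨.inl (by omega), by omega⟩) fun e =>
            have := h2 v e; ⟨.inr e, by omega⟩) (by omega))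

end Pool.Agent.H.MP_c85d9c_lc
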