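import Pool.Agent.Lib.lead.CXDefs

namespace Pool.Agent.H.MP_c85d9c_lc

/-- `Win E U W` : Waiter wins the game on the edges `E` when `U` is unclaimed and she owns `W` -/
inductive Win (E : List (List ℕ)) : Finset ℕ → Finset ℕ → Prop
  | stop {U W} : U.card ≤ 1 → (∃ e ∈ E, ∀ v ∈ e, v ∈ W) → Win E U W
  | step {U W} (p q : ℕ) : p ∈ U → q ∈ U → p ≠ q → Win E (U \ {p, q}) (insert p W) →
      Win E (U \ {p, q}) (insert q W) → Win E U W

/-- Waiter wins on the hypergraph with the listed edges; the vertices are those lying in an edge -/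
def WaiterWins (E : List (List ℕ)) : Prop := Win E E.flatten.toFinset ∅

end Pool.Agent.H.MP_c85d9c_lc
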