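import Pool.Agent.H.MP_c85d9c_lc.D
import Pool.Agent.Lib.lead.CXGraphRed

namespace Pool.Agent.H.MP_c85d9c_lc

open Pool.Agent.Lib.CX

def gl (n m k : ℕ) : List ℕ := (List.range (5 * (n + m))).filter fun v => v < 5 * k ∧ (v % 5 = 0 ∨ v % 5 = 1 ∧ v < 5 * n)
def cl (n m j : ℕ) : List ℕ :=
  (List.range (5 * (n + m))).filter fun v => 5 * n ≤ v ∧ (v < 5 * (n + j) ∧ v % 5 = 1 ∨ v = 5 * (n + j) + 2)

def ed (n m : ℕ) (L : ℕ → ℕ → ℕ) : List (List ℕ) :=
  gl n m (n + m) :: ((List.range n).flatMap (fun i => (gl n m i ++ [5 * i + 3, 5 * i + 4]) :: (gl n m i ++ [5 * i + 2, 5 * i]) ::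
    (List.range (m + 1)).flatMap fun j =>
      [gl n m i ++ [5 * i + 2, 5 * i + 3] ++ cl n m j, gl n m i ++ [5 * i + 2, 5 * i + 4] ++ cl n m j]) ++
  (List.range m).flatMap fun j => (gl n m (n + j) ++ [5 * (n + j) + 2, 5 * (n + j) + 1]) ::
    (List.range 3).map fun t => gl n m (n + j) ++ [5 * (n + j) + 2, L j t])

variable {n m : ℕ} {L : ℕ → ℕ → ℕ} {P : ℕ → Prop}

theorem gl_iff {k} (h : k ≤ n + m) : (∀ v ∈ gl n m k, P v) ↔ GG n k P := by
  simp only [gl, List.mem_filter, List.mem_range, decide_eq_true_eq]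
  refine ⟨fun a i l => ⟨a _ (by omega), fun _ => a _ (by omega)⟩, fun a v b => ?_⟩
  have := a (v / 5) (by omega)
  obtain c | c := b.2.2
  · simpa [show 5 * (v / 5) = v by omega] using this.1
  · simpa [show 5 * (v / 5) + 1 = v by omega] using this.2 (by omega)

theorem cl_iff : (∃ j < m + 1, ∀ v ∈ cl n m j, P v) ↔ CC n m P := by
  simp only [cl, List.mem_filter, List.mem_range, decide_eq_true_eq, CC, Nat.lt_succ_iff]
  refine exists_congr fun j => and_congr_right fun h => ⟨fun a => ⟨fun i l => a _ (by omega), fun _ => a _ (by omega)⟩,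
    fun a v b => ?_⟩
  obtain c | rfl := b.2.2
  · simpa [show 5 * (n + (v / 5 - n)) + 1 = v by omega] using a.1 (v / 5 - n) (by omega)
  · exact a.2 (by omega)

theorem ed_iff : (∃ e ∈ ed n m L, ∀ v ∈ e, P v) ↔ Own n m L P := by
  simp only [ed, List.mem_cons, List.mem_append, List.mem_flatMap, List.mem_range, List.mem_map, List.not_mem_nil,
    or_false, Own, ← cl_iff]
  constructor
  · rintro ⟨e, rfl | ⟨i, a, rfl | rfl | ⟨j, b, rfl | rfl⟩⟩ | ⟨j, a, rfl | ⟨t, b, rfl⟩⟩, h⟩ <;>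
      simp only [List.forall_mem_append, List.forall_mem_cons, gl_iff le_rfl] at h
    · exact .inr (.inr h)
    · exact .inl ⟨i, a, (gl_iff (by omega)).1 h.1, .inl ⟨h.2.1, h.2.2.1⟩⟩
    · exact .inl ⟨i, a, (gl_iff (by omega)).1 h.1, .inr ⟨h.2.1, .inl h.2.2.1⟩⟩
    · exact .inl ⟨i, a, (gl_iff (by omega)).1 h.1.1, .inr ⟨h.1.2.1, .inr ⟨.inl h.1.2.2.1, j, b, h.2⟩⟩⟩
    · exact .inl ⟨i, a, (gl_iff (by omega)).1 h.1.1, .inr ⟨h.1.2.1, .inr ⟨.inr h.1.2.2.1, j, b, h.2⟩⟩⟩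
    · exact .inr (.inl ⟨j, a, (gl_iff (by omega)).1 h.1, h.2.1, .inl h.2.2.1⟩)
    · exact .inr (.inl ⟨j, a, (gl_iff (by omega)).1 h.1, h.2.1, .inr ⟨t, b, h.2.2.1⟩⟩)
  · rintro (⟨i, a, b, c | ⟨c, d | ⟨d | d, j, e, f⟩⟩⟩ | ⟨j, a, b, c, d | ⟨t, e, d⟩⟩ | b) <;>
      replace b := (gl_iff (m := m) (by omega)).2 b
    · exact ⟨_, .inr (.inl ⟨i, a, .inl rfl⟩), List.forall_mem_append.2 ⟨b, by simp [c]⟩⟩
    · exact ⟨_, .inr (.inl ⟨i, a, .inr (.inl rfl)⟩), List.forall_mem_append.2 ⟨b, by simp [c, d]⟩⟩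
    · exact ⟨_, .inr (.inl ⟨i, a, .inr (.inr ⟨j, e, .inl rfl⟩)⟩),
        List.forall_mem_append.2 ⟨List.forall_mem_append.2 ⟨b, by simp [c, d]⟩, f⟩⟩
    · exact ⟨_, .inr (.inl ⟨i, a, .inr (.inr ⟨j, e, .inr rfl⟩)⟩),
        List.forall_mem_append.2 ⟨List.forall_mem_append.2 ⟨b, by simp [c, d]⟩, f⟩⟩
    · exact ⟨_, .inr (.inr ⟨j, a, .inl rfl⟩), List.forall_mem_append.2 ⟨b, by simp [c, d]⟩⟩
    · exact ⟨_, .inr (.inr ⟨j, a, .inr ⟨t, e, rfl⟩⟩), List.forall_mem_append.2 ⟨b, by simp [c, d]⟩⟩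
    · exact ⟨_, .inl rfl, b⟩

theorem ed_mem {v} (a : v < 5 * (n + m)) (b : v % 5 < 3 ∨ v < 5 * n) : v ∈ (ed n m L).flatten.toFinset := by
  simp only [ed, List.mem_toFinset, List.mem_flatten, List.mem_cons, List.mem_append, List.mem_flatMap, List.mem_range]
  by_cases c : v % 5 = 0 ∨ v % 5 = 1 ∧ v < 5 * n
  · exact ⟨_, .inl rfl, by simp only [gl, List.mem_filter, List.mem_range, decide_eq_true_eq]; omega⟩
  by_cases d : 5 * n ≤ v
  · exact ⟨_, .inr (.inr ⟨v / 5 - n, by omega, .inl rfl⟩), List.mem_append_right _ (by simp; omega)⟩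
  by_cases e : v % 5 = 2
  · exact ⟨_, .inr (.inl ⟨v / 5, by omega, .inr (.inl rfl)⟩), List.mem_append_right _ (by simp; omega)⟩
  · exact ⟨_, .inr (.inl ⟨v / 5, by omega, .inl rfl⟩), List.mem_append_right _ (by simp; omega)⟩

def lv (l : ℕ × Bool) : ℕ := 5 * l.1 + if l.2 then 3 else 4
def LL (φ : List (Cl3 ℕ)) (j t : ℕ) : ℕ := lv (litOf (φ.getD j ((0, true), (0, true), (0, true)), t))

theorem hard : NPHard WaiterWins := by
  refine NPHard.of_sat3 (fun φ => ed (3 * φ.length + 1) φ.length (LL φ)) (by unfold ed gl cl LL lv litOf; fun_prop)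
    fun φ hφ => ?_
  have hL : ∀ l, 3 ≤ lv l % 5 := fun l => by unfold lv; split_ifs <;> omega
  have hv : ∀ C ∈ φ, ∀ t, (litOf (C, t)).1 < 3 * φ.length := fun C h t => hφ C h _ (by
    rcases t with _ | _ | t <;> simp [litOf, Cl3.vars])
  simp only [Sat3, ok_iff]
  refine ⟨fun ⟨w, h⟩ => waiter (fun _ => ed_iff.2) (T := fun v => v < 5 * (3 * φ.length + 1) ∧ v = lv (v / 5, w (v / 5)))
    (fun i => ?_) (fun v h => h.2 ▸ hL _) (fun j l => ?_) _ 0 (zero_add _) _ _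
    (fun v h => h.elim (fun h => ed_mem h.2.1 h.2.2) fun h => ed_mem (by omega) (.inr h.1)) (by omega), fun h => ?_⟩
  · rw [show (5 * i + 3) / 5 = i by omega, show (5 * i + 4) / 5 = i by omega]
    cases w i <;> simp [lv]
  · obtain ⟨t, a, b⟩ := h _ (List.getElem_mem l)
    have := hv _ (List.getElem_mem l) t
    refine ⟨t, a, ?_⟩
    rw [LL, List.getD_eq_getElem _ _ l]
    generalize litOf (φ[j], t) = x at *
    have e : lv x / 5 = x.1 := by unfold lv; split_ifs <;> omega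
    rw [e, b]
    exact ⟨by omega, rfl⟩
  by_contra c
  have z : ∀ v < 5 * (3 * φ.length + 1 + φ.length), v % 5 < 3 ∨ v < 5 * (3 * φ.length + 1) →
      nu (ed (3 * φ.length + 1) φ.length (LL φ)).flatten.toFinset ∅ v = 1 / 2 := fun v a b => by
    simp only [nu, ed_mem a b, Finset.notMem_empty, if_true, if_false]
  have s : ∀ i < 3 * φ.length + 1, S0 (nu (ed (3 * φ.length + 1) φ.length (LL φ)).flatten.toFinset ∅) i := fun i _ =>
    ⟨z _ (by omega) (by omega), z _ (by omega) (by omega), z _ (by omega) (by omega), z _ (by omega) (by omega),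
      z _ (by omega) (by omega)⟩
  refine Win.not_inv (I := Inv (3 * φ.length + 1) φ.length) (fun ν a b => a.noown (ed_iff.1 b))
    (fun ν p q μ μ' a => a.step (fun _ => ed_iff.1) (fun _ _ => hL _) fun ν b => ?_) h (Finset.disjoint_empty_right _)
    ⟨nu_nn _ _, fun k _ => if l : k < 3 * φ.length + 1 then .inl ⟨l, .inl (s k l)⟩ else
      .inr ⟨l, .inl ⟨z _ (by omega) (by omega), z _ (by omega) (by omega)⟩⟩, ⟨0, by omega, s 0 (by omega)⟩,
      .inr fun j _ _ => ⟨z _ (by omega) (by omega), z _ (by omega) (by omega)⟩⟩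
  push Not at c
  obtain ⟨C, d, e⟩ := c fun x => decide (ν (5 * x + 3) ≠ 0)
  obtain ⟨j, l, rfl⟩ := List.getElem_of_mem d
  refine ⟨j, l, fun t u => ?_⟩
  have := e t u
  have := b _ ((hv _ d t).trans (Nat.lt_succ_self _))
  change ν (LL φ j t) = 0
  rw [LL, List.getD_eq_getElem _ _ l]
  generalize litOf (φ[j], t) = x at *
  obtain ⟨x, _ | _⟩ := x <;> simp_all [lv]

end Pool.Agent.H.MP_c85d9c_lc
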